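import Pool.Agent.TFJ.Stmts

set_option autoImplicit false

namespace Pool.Agent.TFJ.H23

open Pool.Agent.TFJ

theorem wprod_rot {M : Type} [Monoid M] (Q : ℕ) (x : Fin (Q + 1) → M) :
    wprod x = x 0 * wprod (fun j : Fin Q => x j.succ) ∧
      wprod (rot x) = wprod (fun j : Fin Q => x j.succ) * x 0 := by
  constructor
  · simp [wprod, List.ofFn_succ]
  · unfold wprod rot
    rw [List.ofFn_succ']
    simp [List.concat_eq_append, finRotate_last]

theorem rot : RotStmt := by
  constructor
  · intro S _ P x
    rcases P with _ | Q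
    · have h : Pool.Agent.TFJ.rot x = x := by
        funext j; exact j.elim0
      rw [h, sub_self]
      exact zero_mem _
    · obtain ⟨h1, h2⟩ := wprod_rot Q x
      rw [h1, h2]
      exact AddSubgroup.subset_closure ⟨_, _, rfl⟩
  · intro G _ P x
    rcases P with _ | Q
    · have h : Pool.Agent.TFJ.rot x = x := by
        funext j; exact j.elim0
      rw [h]
    · obtain ⟨h1, h2⟩ := wprod_rot Q x
      rw [h1, h2, isConj_iff]
      exact ⟨(x 0)⁻¹, by group⟩

end Pool.Agent.TFJ.H23
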